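import Pool.Agent.W282.DZ.Top

/-!
# MP_b7926e_nt: Zilber's conjecture on intersections with tori for almost all algebraic subgroups

An `r`-tuple `lam` of vectors in `ℤ^n` defines the algebraic subgroup
`H(lam) = {x ∈ (ℂ^×)^n : x ^ lam_1 = … = x ^ lam_r = 1}`; every special subvariety (torsion coset)
of codimension `r` is a component of such a group. Let `V` be an irreducible subvariety of
`(ℂ^×)^n` of dimension `m`. If `lam` has rank `r`, then a component `A` of the intersection of `V`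
with a component of `H(lam)` is atypical if and only if `dim A + r > m`.

We prove: for almost all `lam` of size at most `B` the intersection `V ∩ H(lam)` has no atypical
component except for torsion points (which lie in finitely many special subvarieties of `V`
by Laurent's theorem). The number of exceptional `lam` is

* at most `C deg(V) B ^ (n r - 1) (log B) ^ r`, for all `V` and `r` (there are about `(2 B) ^ (n r)`
  tuples of size at most `B`);
* more precisely at most `C deg(V) B ^ (n r - δ) (log B) ^ r`, with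
  `δ = min (r, N (r - s) - s)`, `s = min (m, r - 1)`, if no algebraic subgroup of dimension less than
  `N` contains `V`, and `N > m`;
* at most `C deg(V) B ^ ((n - 1) r)` if `r ≥ m + 2` and `N (r - m) > r + m`, so for all `V` which are
  not special if `r ≥ m + 3`, `m ≥ 1`. This is the true order of magnitude as soon as `V` contains
  a non-torsion point with `n - 1` independent relations, and the order predicted by the conjecture.

The constant `C` depends only on `n` and `r`.
-/

open MvPolynomial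
open scoped ENNReal

namespace Pool.Agent.Results.MP_b7926e_nt.AlmostAllSubgroups

open Pool.Agent.W282.ZP Pool.Agent.W282.DZ

/-- The algebraic subgroup of `(ℂ^×)^n` defined by the exponent vectors `lam`. -/
def group {n r : ℕ} (lam : Fin r → Fin n → ℤ) : Set (Fin n → ℂ) :=
  {x | (∀ j, x j ≠ 0) ∧ ∀ t, ∏ j, x j ^ lam t j = 1}

/-- `A` consists of one torsion point of `(ℂ^×)^n`. -/
def IsTorsionPoint {n : ℕ} (A : Set (Fin n → ℂ)) : Prop :=
  ∃ ζ : Fin n → ℂ, A = {ζ} ∧ ∀ j, ∃ k : ℕ, 0 < k ∧ ζ j ^ k = 1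

/-- For all `lam` of size at most `B` outside of a set of at most `M` exceptions, every irreducible
subset of `V ∩ H(lam)` has dimension at most `m - r`, or is a torsion point. -/
def TypicalAllBut {n : ℕ} (V : Set (Fin n → ℂ)) (m r B : ℕ) (M : ℝ≥0∞) : Prop :=
  ∃ E : Finset (Fin r → Fin n → ℤ), (E.card : ℝ≥0∞) ≤ M ∧
    ∀ lam : Fin r → Fin n → ℤ, lam ∉ E → (∀ t j, |lam t j| ≤ (B : ℤ)) →
      ∀ A ⊆ V ∩ group lam, (idealOf A).IsPrime →
        zdim A + (r : Cardinal) ≤ (m : Cardinal) ∨ IsTorsionPoint A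

/-- Every algebraic subgroup containing `V` has dimension at least `N`. -/
def SubgroupDimGE {n : ℕ} (V : Set (Fin n → ℂ)) (N : ℕ) : Prop :=
  ∀ Λ : Submodule ℤ (Fin n → ℤ), (∀ a ∈ Λ, ∀ x ∈ V, ∏ j, x j ^ a j = 1) →
    Module.finrank ℤ Λ + N ≤ n

theorem result (n r : ℕ) (hr : 1 ≤ r) : ∃ C : ℕ, ∀ (m : ℕ) (V : Set (Fin n → ℂ)),
    (idealOf V).IsPrime → (∀ x ∈ V, ∀ j, x j ≠ 0) → zdim V = (m : Cardinal) →
    Deg m (idealOf V) ≠ ⊤ ∧
    (∀ B : ℕ, 2 ≤ B → TypicalAllBut V m r B
      (C * Deg m (idealOf V) * (B : ℝ≥0∞) ^ (n * r - 1) * (Nat.log 2 B : ℝ≥0∞) ^ r)) ∧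
    ∀ N : ℕ, SubgroupDimGE V N → m < N →
      (∀ δ ≤ r, δ + min m (r - 1) ≤ N * (r - min m (r - 1)) →
        ∀ B : ℕ, 2 ≤ B → TypicalAllBut V m r B
          (C * Deg m (idealOf V) * (B : ℝ≥0∞) ^ (n * r - δ) * (Nat.log 2 B : ℝ≥0∞) ^ r)) ∧
      (m + 2 ≤ r → r + m < N * (r - m) →
        ∀ B : ℕ, 2 ≤ B → TypicalAllBut V m r B
          (C * Deg m (idealOf V) * (B : ℝ≥0∞) ^ ((n - 1) * r))) := by
  classical
  choose C hC using fun δ : Fin (r + 1) => mainA n r δ (Nat.lt_succ_iff.1 δ.2)
  obtain ⟨C', hC'⟩ := mainB n r r le_rfl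
  refine ⟨(∑ δ, C δ) + C', fun m V hV h0 hm => ?_⟩
  have hm' : dimQ (idealOf V) = m := by
    rw [dimQ]
    change Cardinal.toNat (zdim V) = m
    rw [hm, Cardinal.toNat_natCast]
  obtain ⟨D, hD⟩ := deg_lt_top hV
  rw [hm'] at hD
  have hX := X_notMem hV h0
  have hrkV := rank_add_dim hV hX
  -- translation of the conclusion
  have key : ∀ (B : ℕ) (M M' : ℝ≥0∞), AllBut V r B M → M ≤ M' → TypicalAllBut V m r B M' := by
    rintro B M M' ⟨E, hE, h⟩ hMM
    refine ⟨E, hE.trans hMM, fun lam hlam hsize A hA hprime => ?_⟩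
    have h1 := h lam hlam hsize A (fun x hx => (hA hx).1) hprime (fun x hx => (hA hx).2.2)
    rcases h1 with h1 | h1
    · left
      have h2 : zdim A = (dimQ (idealOf A) : Cardinal) :=
        (Cardinal.cast_toNat_of_lt_aleph0 (trdeg_lt (idealOf A) hprime)).symm
      rw [h2, ← hm']
      exact_mod_cast h1
    · exact Or.inr h1
  have hCle : ∀ δ : Fin (r + 1), C δ ≤ (∑ δ, C δ) + C' := fun δ =>
    (Finset.single_le_sum (f := C) (fun _ _ => Nat.zero_le _) (Finset.mem_univ δ)).trans
      (Nat.le_add_right _ _)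
  have hMA : ∀ (δ : Fin (r + 1)) (B e : ℕ),
      ((C δ * B ^ e * Nat.log 2 B ^ r : ℕ) : ℝ≥0∞) * Deg (dimQ (idealOf V)) (idealOf V) ≤
      (((∑ δ, C δ) + C' : ℕ) : ℝ≥0∞) * Deg m (idealOf V) * (B : ℝ≥0∞) ^ e *
        (Nat.log 2 B : ℝ≥0∞) ^ r := by
    intro δ B e
    rw [hm']
    calc ((C δ * B ^ e * Nat.log 2 B ^ r : ℕ) : ℝ≥0∞) * Deg m (idealOf V)
        = (C δ : ℝ≥0∞) * Deg m (idealOf V) * (B : ℝ≥0∞) ^ e * (Nat.log 2 B : ℝ≥0∞) ^ r := by
          push_cast
          ring
      _ ≤ _ := by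
          gcongr
          exact hCle δ
  refine ⟨fun h => ?_, fun B hB => ?_, fun N hN hmN => ⟨fun δ hδ hδ' B hB => ?_,
    fun hr2 hrN B hB => ?_⟩⟩
  · rw [h, top_le_iff] at hD
    exact ENNReal.natCast_ne_top D hD
  · -- the general bound
    refine key B _ _ (hC ⟨1, by omega⟩ V hV h0 ?_ B hB) (hMA _ B _)
    intro u hur hum hcase
    change (n + 1) * u + Module.finrank ℤ (lat (idealOf V)) * (r - u) + 1 ≤ n * r
    rw [hm'] at hum hcase hrkV
    obtain ⟨k, hk⟩ : ∃ k, r = u + 1 + k := ⟨r - (u + 1), by omega⟩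
    have hru : r - u = k + 1 := by omega
    rw [hru, hk]
    generalize Module.finrank ℤ (lat (idealOf V)) = ρ at hcase hrkV
    have h1 : u + 1 ≤ n - ρ := by omega
    obtain ⟨c, hc⟩ : ∃ c, n = ρ + u + 1 + c := ⟨n - (ρ + u + 1), by omega⟩
    rw [hc]
    nlinarith [Nat.zero_le (u * k), Nat.zero_le (c * k), Nat.zero_le k, Nat.zero_le c]
  · -- the precise bound
    have hρN : Module.finrank ℤ (lat (idealOf V)) + N ≤ n := by
      refine hN _ fun a ha x hx => ?_
      exact (eval_bin x (h0 x hx) a).1 (mem_idealOf.1 ((mem_lat hV hX a).1 ha) x hx)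
    refine key B _ _ (hC ⟨δ, by omega⟩ V hV h0 ?_ B hB) (hMA _ B _)
    intro u hur hum hcase
    change (n + 1) * u + Module.finrank ℤ (lat (idealOf V)) * (r - u) + δ ≤ n * r
    rw [hm'] at hum
    set s := min m (r - 1) with hs
    have hus : u ≤ s := by omega
    have h1 : N * (r - s) ≤ N * (r - u) := Nat.mul_le_mul_left _ (by omega)
    obtain ⟨k, hk⟩ : ∃ k, r = u + k := ⟨r - u, by omega⟩
    have hru : r - u = k := by omega
    rw [hru] at h1 ⊢
    generalize Module.finrank ℤ (lat (idealOf V)) = ρ at hρN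
    obtain ⟨c, hc⟩ : ∃ c, n = ρ + N + c := ⟨n - (ρ + N), by omega⟩
    have h2 : δ + u ≤ N * k := by omega
    rw [hk, hc]
    nlinarith [Nat.zero_le (c * k), Nat.zero_le (N * u), Nat.zero_le (c * u)]
  · -- the sharp bound
    have hρN : Module.finrank ℤ (lat (idealOf V)) + N ≤ n := by
      refine hN _ fun a ha x hx => ?_
      exact (eval_bin x (h0 x hx) a).1 (mem_idealOf.1 ((mem_lat hV hX a).1 ha) x hx)
    have h3 := hC' V hV h0 (by omega) (by
      intro u hum
      rw [hm'] at hum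
      generalize Module.finrank ℤ (lat (idealOf V)) = ρ at hρN
      obtain ⟨k, hk⟩ : ∃ k, r = u + k := ⟨r - u, by omega⟩
      have hru : r - u = k := by omega
      rw [hru]
      obtain ⟨c, hc⟩ : ∃ c, n = ρ + N + c := ⟨n - (ρ + N), by omega⟩
      have h2 : r + u + min u 1 ≤ N * k := by
        rcases Nat.eq_zero_or_pos u with h | h
        · subst h
          have : r = k := by omega
          rw [this]
          have hN1 : 1 ≤ N := by omega
          simpa using Nat.mul_le_mul_right k hN1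
        · have h4 : N * (r - m) ≤ N * k := Nat.mul_le_mul_left _ (by omega)
          omega
      rw [hc]
      have h5 : (ρ + N + c) * r = (ρ + N + c) * u + (ρ + N + c) * k := by rw [hk]; ring
      rw [h5]
      nlinarith [Nat.zero_le (c * k), Nat.zero_le (c * u)]) B hB
    refine key B _ _ h3 ?_
    have hexp : n * r - r = (n - 1) * r := by
      rw [Nat.sub_mul, one_mul]
    rw [hm', hexp]
    calc ((C' * B ^ ((n - 1) * r) : ℕ) : ℝ≥0∞) * Deg m (idealOf V)
        = (C' : ℝ≥0∞) * Deg m (idealOf V) * (B : ℝ≥0∞) ^ ((n - 1) * r) := by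
          push_cast
          ring
      _ ≤ _ := by
          gcongr
          exact Nat.le_add_left _ _

end Pool.Agent.Results.MP_b7926e_nt.AlmostAllSubgroups
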